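import Pool.Agent.Work.MP_db9399_cg_helper35.Kern

/-! # SPW: assembly (helper35) -/

set_option autoImplicit false

namespace Pool.Agent.Work.MP_db9399_cg.helper35

open Finset Classical
open Pool.Agent.Work.MP_db9399_all (nb mis)
open Pool.Agent.Work.MP_db9399_en (tk tks HH wlk resE resO resT Wts EIn Stmt_ENGINE)
open _root_.MP_db9399_co (IsTotalColoring)

universe u

/-- cut off weights -/
noncomputable def th (J : ℕ) (i : ℕ) : ℝ := if i < J then 1 else 0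

theorem th_wts (L J : ℕ) (h2 : 2 ≤ J) (hJ : J ≤ 2 * L) : Wts L (th J) where
  w0 := by simp [th]; omega
  w1 := by simp [th]; omega
  anti := fun i => by
    unfold th
    split_ifs with h h'
    · exact le_refl _
    · omega
    · exact zero_le_one
    · exact le_refl _
  nonneg := fun i => by
    unfold th
    split_ifs <;> norm_num
  zero := fun i hi => by
    unfold th
    rw [if_neg (by omega)]

theorem sum_th_odd (L : ℕ) (hL : 1 ≤ L) (F : ℕ → ℝ) :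
    ∑ i ∈ range L, (th (2 * L) (2 * i + 1) - th (2 * L) (2 * i + 2)) * F i = F (L - 1) := by
  rw [Finset.sum_eq_single (L - 1)]
  · unfold th
    rw [if_pos (by omega), if_neg (by omega)]
    ring
  · intro i hi hne
    rw [Finset.mem_range] at hi
    unfold th
    rw [if_pos (by omega), if_pos (by omega)]
    ring
  · intro h
    exact absurd (Finset.mem_range.2 (by omega)) h

theorem sum_th_even (L : ℕ) (F : ℕ → ℝ) :
    ∑ i ∈ range L, (th (2 * L) (2 * i) - th (2 * L) (2 * i + 1)) * F i = 0 := by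
  refine Finset.sum_eq_zero fun i hi => ?_
  rw [Finset.mem_range] at hi
  unfold th
  rw [if_pos (by omega), if_pos (by omega)]
  ring

theorem sum_th_even' (L : ℕ) (hL : 1 ≤ L) (F : ℕ → ℝ) :
    ∑ i ∈ range L, (th (2 * L - 1) (2 * i) - th (2 * L - 1) (2 * i + 1)) * F i = F (L - 1) := by
  rw [Finset.sum_eq_single (L - 1)]
  · unfold th
    rw [if_pos (by omega), if_neg (by omega)]
    ring
  · intro i hi hne
    rw [Finset.mem_range] at hi
    unfold th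
    rw [if_pos (by omega), if_pos (by omega)]
    ring
  · intro h
    exact absurd (Finset.mem_range.2 (by omega)) h

theorem sum_th_odd' (L : ℕ) (F : ℕ → ℝ) :
    ∑ i ∈ range L, (th (2 * L - 1) (2 * i + 1) - th (2 * L - 1) (2 * i + 2)) * F i = 0 := by
  refine Finset.sum_eq_zero fun i hi => ?_
  rw [Finset.mem_range] at hi
  unfold th
  by_cases h : 2 * i + 2 < 2 * L - 1
  · rw [if_pos (by omega), if_pos h]
    ring
  · rw [if_neg (by omega), if_neg h]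
    ring

variable {V : Type u} [Fintype V]

theorem resE_eq (S : SimpleGraph V) (r L : ℕ) (hL : 1 ≤ L) (A B : Finset V) (v : V) :
    resE S r L (th (2 * L)) (th (2 * L - 1)) A B v =
      ∑ x ∈ A, pk S r (2 * L) v x - ∑ x ∈ B, pk S r (2 * L - 1) v x := by
  unfold resE
  rw [sum_th_odd L hL (fun i => wlk S r A (2 * i + 2) v),
    sum_th_even' L hL (fun i => wlk S r B (2 * i + 1) v), wlk_eq, wlk_eq]
  have e1 : 2 * (L - 1) + 2 = 2 * L := by omega
  have e2 : 2 * (L - 1) + 1 = 2 * L - 1 := by omega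
  rw [e1, e2]

theorem resO_eq (S : SimpleGraph V) (r L : ℕ) (A B : Finset V) (v : V) :
    resO S r L (th (2 * L)) (th (2 * L - 1)) A B v = 0 := by
  unfold resO
  rw [sum_th_even L (fun i => wlk S r A (2 * i + 1) v),
    sum_th_odd' L (fun i => wlk S r B (2 * i + 2) v), sub_zero]

theorem resT_eq {P : ℕ} (S : SimpleGraph V) (r L : ℕ) (hL : 1 ≤ L) (c : V → Fin P)
    (N : Fin P → V → V) (lab : Fin P → V → Bool) (b : Fin P) (v : V) :
    resT S r L (th (2 * L)) (th (2 * L - 1)) c N lab b v =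
      ∑ s : Bool, |∑ x ∈ tks c N lab b s, pk S r (2 * L) v x -
        ∑ x ∈ tks c N lab b (!s), pk S r (2 * L - 1) v x| := by
  unfold resT
  refine Finset.sum_congr rfl fun s _ => ?_
  rw [resE_eq S r L hL, resO_eq, abs_zero, add_zero]

/-- what a block of own colours has to do for the graph `G` -/
def OwnFor (G : SimpleGraph V) (d : ℕ) (a s ε e : ℝ) : Prop :=
  ∀ (S : SimpleGraph V) (P r : ℕ) (k : V → V → ℝ) (N : Fin P → V → V),
    Mat G S d P r a N → Tst k d a e → (∀ i, |∑ x, k i x| ≤ e) →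
      ∃ c : V → Fin P, Own G S d P r a s N c ∧
        ∀ i, ∑ b, |∑ x ∈ tk c N b, k i x| ≤
          ∑ b, |∑ x ∈ univ.filter (fun x => N b x = x), k i x| + ε

/-- large `d` -/
theorem large (a s ε₀ : ℝ) (ha : 0 < a) (hs : 0 < s) (hε : a ≤ ε₀) (hε' : 2 * (s * a) ≤ ε₀) :
    ∃ d1 : ℕ, ∀ d : ℕ, d1 ≤ d → 2 ≤ d ∧
    (⌈(d : ℝ) ^ (s * a)⌉₊ : ℝ) ≤ (d : ℝ) ^ ε₀ ∧ (⌈2 * (d : ℝ) ^ (s * a)⌉₊ : ℝ) ≤ (d : ℝ) ^ ε₀ ∧
    (d : ℝ) ^ (a / 20) ≤ (d : ℝ) ^ ε₀ ∧ (d : ℝ) ^ (-ε₀) ≤ 1 / 4000000 ∧ 1 ≤ (d : ℝ) ^ (s * a) ∧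
    (d : ℝ) ^ (1 - ε₀) ≤ (d : ℝ) ^ (1 - a) := by
  have hε0 : 0 < ε₀ := ha.trans_le hε
  have hsa : 0 < s * a := by positivity
  have h1 : Filter.Tendsto (fun d : ℕ => (d : ℝ) ^ (s * a)) Filter.atTop Filter.atTop :=
    (tendsto_rpow_atTop hsa).comp tendsto_natCast_atTop_atTop
  have h2 : Filter.Tendsto (fun d : ℕ => (d : ℝ) ^ ε₀) Filter.atTop Filter.atTop :=
    (tendsto_rpow_atTop hε0).comp tendsto_natCast_atTop_atTop
  have h3 := (h1.eventually_ge_atTop 4).and ((h2.eventually_ge_atTop 4000000).and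
    (Filter.eventually_ge_atTop 2))
  obtain ⟨d1, hd1⟩ := Filter.eventually_atTop.1 h3
  refine ⟨d1, fun d hd => ?_⟩
  obtain ⟨g1, g2, g3⟩ := hd1 d hd
  have hd1 : (1 : ℝ) ≤ d := by
    have : (2 : ℝ) ≤ d := by exact_mod_cast g3
    linarith
  have hd0 : (0 : ℝ) < d := by linarith
  have hsp1 : 1 ≤ (d : ℝ) ^ (s * a) := Real.one_le_rpow hd1 hsa.le
  have hspa : 4 * (d : ℝ) ^ (s * a) ≤ (d : ℝ) ^ ε₀ := by
    have e2 : (d : ℝ) ^ (s * a) * (d : ℝ) ^ (s * a) = (d : ℝ) ^ (2 * (s * a)) := by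
      rw [← Real.rpow_add hd0]
      ring_nf
    have e3 : (d : ℝ) ^ (2 * (s * a)) ≤ (d : ℝ) ^ ε₀ := Real.rpow_le_rpow_of_exponent_le hd1 hε'
    nlinarith
  refine ⟨g3, ?_, ?_, ?_, ?_, hsp1, ?_⟩
  · have := Nat.ceil_lt_add_one (a := (d : ℝ) ^ (s * a)) (by linarith)
    linarith
  · have := Nat.ceil_lt_add_one (a := 2 * (d : ℝ) ^ (s * a)) (by linarith)
    linarith
  · exact Real.rpow_le_rpow_of_exponent_le hd1 (by linarith)
  · rw [Real.rpow_neg hd0.le, ← one_div]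
    exact one_div_le_one_div_of_le (by norm_num) g2
  · exact Real.rpow_le_rpow_of_exponent_le hd1 (by linarith)

/-- the core of the assembly -/
theorem core (hA : Stmt_A.{u}) (hKER : Stmt_KER.{u}) (hTOK : Stmt_TOK.{u}) (hKML : Stmt_KML.{u})
    (hENG : Stmt_ENGINE.{u}) (s a0 : ℝ) (hs : 0 < s) (ha0 : 0 < a0) :
    ∃ (a ε : ℝ), 0 < a ∧ a ≤ a0 ∧ a ≤ 1 / 100 ∧ 0 < ε ∧ ∀ eO : ℝ, 0 < eO →
      ∃ (MS : ℝ) (d0 : ℕ), 1 ≤ MS ∧ ∀ {V : Type u} [Fintype V] (G : SimpleGraph V) (d : ℕ) (g : ℝ),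
        d0 ≤ d → Reg G d → g ≤ 1 → (d : ℝ) ^ (-(a / 200)) ≤ g → Ex2 G d (MS * d) g →
        OwnFor G d a s ε eO →
        ∃ (c : V → Fin (d + 2)) (t : Sym2 V → Fin (d + 2)), IsTotalColoring G c t := by
  obtain ⟨ε₀, c₀, dE, hε₀, hc₀, hEng⟩ := hENG
  obtain ⟨aK, haK, hKML⟩ := hKML s hs
  obtain ⟨a, ha, haε, haε', haa0, haaK, ha1⟩ : ∃ a : ℝ, 0 < a ∧ a ≤ ε₀ ∧ 2 * (s * a) ≤ ε₀ ∧
      a ≤ a0 ∧ a ≤ aK ∧ a ≤ 1 / 100 := by
    refine ⟨min (min ε₀ (ε₀ / (2 * s))) (min (min a0 aK) (1 / 100)), ?_, ?_, ?_, ?_, ?_, ?_⟩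
    · exact lt_min (lt_min hε₀ (by positivity)) (lt_min (lt_min ha0 haK) (by norm_num))
    · exact (min_le_left _ _).trans (min_le_left _ _)
    · have h : min (min ε₀ (ε₀ / (2 * s))) (min (min a0 aK) (1 / 100)) ≤ ε₀ / (2 * s) :=
        (min_le_left _ _).trans (min_le_right _ _)
      rw [le_div_iff₀ (by positivity)] at h
      linarith
    · exact (min_le_right _ _).trans ((min_le_left _ _).trans (min_le_left _ _))
    · exact (min_le_right _ _).trans ((min_le_left _ _).trans (min_le_right _ _))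
    · exact (min_le_right _ _).trans (min_le_right _ _)
  refine ⟨a, c₀ / 20000000, ha, haa0, ha1, by positivity, ?_⟩
  set ε := c₀ / 20000000 with hεdef
  have hε : 0 < ε := by positivity
  intro eO heO
  obtain ⟨eT, dT, heT, hTok⟩ := hTOK a ε ha ha1 hε
  obtain ⟨eK, dK, heK, hKml⟩ := hKML a ε ha haaK ha1 hε
  obtain ⟨e, he0, he1, he2, he3, he4⟩ : ∃ e : ℝ, 0 < e ∧ e ≤ eO ∧ e ≤ eT ∧ 2 * e ≤ eK ∧ e ≤ ε := by
    refine ⟨min (min eO eT) (min (eK / 2) ε), ?_, ?_, ?_, ?_, ?_⟩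
    · exact lt_min (lt_min heO heT) (lt_min (by positivity) hε)
    · exact (min_le_left _ _).trans (min_le_left _ _)
    · exact (min_le_left _ _).trans (min_le_right _ _)
    · have := (min_le_right (min eO eT) (min (eK / 2) ε)).trans (min_le_left _ _)
      linarith
    · exact (min_le_right _ _).trans (min_le_right _ _)
  obtain ⟨MS, dKe, hMS, hKer⟩ := hKER a e ha ha1 he0
  obtain ⟨ρ0, hρ0, hρ1, hρε⟩ : ∃ ρ0 : ℝ, 0 < ρ0 ∧ ρ0 ≤ 1 ∧ 3 * ρ0 ≤ ε :=
    ⟨min 1 (ε / 3), lt_min one_pos (by positivity), min_le_left _ _, by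
      have := min_le_right (1 : ℝ) (ε / 3)
      linarith⟩
  obtain ⟨dA, hAA⟩ := hA a ρ0 MS ha ha1 hρ0 hρ1 hMS
  obtain ⟨d1, hd1⟩ := large a s ε₀ ha hs haε haε'
  -- `g / 100 ≥ d ^ (-(a / 150))`
  obtain ⟨d2, hd2⟩ : ∃ d2 : ℕ, ∀ d : ℕ, d2 ≤ d → (100 : ℝ) ≤ (d : ℝ) ^ (a / 600) := by
    have h1 : Filter.Tendsto (fun d : ℕ => (d : ℝ) ^ (a / 600)) Filter.atTop Filter.atTop :=
      (tendsto_rpow_atTop (by positivity)).comp tendsto_natCast_atTop_atTop
    exact Filter.eventually_atTop.1 (h1.eventually_ge_atTop 100)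
  refine ⟨MS, max (max (max dE dT) (max dK dKe)) (max dA (max d1 d2)), hMS, ?_⟩
  intro V _ G d g hd hreg hg1 hg hex hown
  have hdE : dE ≤ d := le_trans (by simp) hd
  have hdT : dT ≤ d := le_trans (by simp) hd
  have hdK : dK ≤ d := le_trans (by simp) hd
  have hdKe : dKe ≤ d := le_trans (by simp) hd
  have hdA : dA ≤ d := le_trans (by simp) hd
  have hdd1 : d1 ≤ d := le_trans (by simp) hd
  have hdd2 : d2 ≤ d := le_trans (by simp) hd
  obtain ⟨l0, l1, l2, l3, l4, l5, l6⟩ := hd1 d hdd1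
  have l7 := hd2 d hdd2
  have hdp : (0 : ℝ) < d := by
    have : (2 : ℝ) ≤ d := by exact_mod_cast l0
    linarith
  have hdge1 : (1 : ℝ) ≤ d := by
    have : (2 : ℝ) ≤ d := by exact_mod_cast l0
    linarith
  obtain ⟨S, r, K, Exc, hRes⟩ := hAA G d g hdA hreg hg1 hg hex
  have hr0 : 0 < r := by
    have h1 : (0 : ℝ) < (d : ℝ) ^ (1 - a) := Real.rpow_pos_of_pos hdp _
    have h2 := hRes.rlo
    have h3 : (0 : ℝ) < r := h1.trans_le h2
    exact_mod_cast h3
  have hrd : r ≤ d := by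
    have h1 := hRes.rhi
    have h2 : (d : ℝ) ^ (1 - a / 3) ≤ (d : ℝ) ^ (1 : ℝ) :=
      Real.rpow_le_rpow_of_exponent_le hdge1 (by linarith)
    rw [Real.rpow_one] at h2
    exact_mod_cast h1.trans h2
  have hgS : (d : ℝ) ^ (-(a / 150)) ≤ g / 100 := by
    have e1 : (d : ℝ) ^ (-(a / 150)) * (d : ℝ) ^ (a / 600) = (d : ℝ) ^ (-(a / 200)) := by
      rw [← Real.rpow_add hdp]
      ring_nf
    have e2 : 0 < (d : ℝ) ^ (-(a / 150)) := Real.rpow_pos_of_pos hdp _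
    nlinarith
  obtain ⟨L, hL2, hL, k1, k2, k3, k4, k5, k6, k7⟩ := hKer G S d r (g / 100) ρ0 K Exc hdKe hρ0.le
    hρ1 hgS (by linarith) hRes
  set P := d + 1 - r with hP
  have hPr : P + r = d + 1 := by omega
  set p : V → V → ℝ := fun v x => pk S r (2 * L) v x with hp
  set q : V → V → ℝ := fun v x => pk S r (2 * L - 1) v x with hq
  have hp0 : ∀ v x, 0 ≤ p v x := fun v x => pk_nonneg S r _ v x
  have hq0 : ∀ v x, 0 ≤ q v x := fun v x => pk_nonneg S r _ v x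
  have habs : ∀ v x, |p v x - q v x| ≤ e / d := by
    intro v x
    have h1 := k1 v x
    have h2 := k2 v x
    have h3 := hp0 v x
    have h4 := hq0 v x
    rw [abs_le]
    constructor
    · have : q v x ≤ e / d := h2
      linarith
    · have : p v x ≤ e / d := h1
      linarith
  have hsub1 : ∀ v, (univ.filter fun x => p v x - q v x ≠ 0) ⊆
      univ.filter fun x => pk S r (2 * L) v x ≠ 0 ∨ pk S r (2 * L - 1) v x ≠ 0 := by
    intro v x hx
    rw [Finset.mem_filter] at hx ⊢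
    refine ⟨Finset.mem_univ _, ?_⟩
    by_contra hcon
    push Not at hcon
    refine hx.2 ?_
    simp only [hp, hq]
    rw [hcon.1, hcon.2, sub_zero]
  have hsub2 : ∀ x, (univ.filter fun v => p v x - q v x ≠ 0) ⊆
      univ.filter fun v => pk S r (2 * L) v x ≠ 0 ∨ pk S r (2 * L - 1) v x ≠ 0 := by
    intro x v hx
    rw [Finset.mem_filter] at hx ⊢
    refine ⟨Finset.mem_univ _, ?_⟩
    by_contra hcon
    push Not at hcon
    refine hx.2 ?_
    simp only [hp, hq]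
    rw [hcon.1, hcon.2, sub_zero]
  have hsub3 : ∀ v, (univ.filter fun x => p v x + q v x ≠ 0) ⊆
      univ.filter fun x => pk S r (2 * L) v x ≠ 0 ∨ pk S r (2 * L - 1) v x ≠ 0 := by
    intro v x hx
    rw [Finset.mem_filter] at hx ⊢
    refine ⟨Finset.mem_univ _, ?_⟩
    by_contra hcon
    push Not at hcon
    refine hx.2 ?_
    simp only [hp, hq]
    rw [hcon.1, hcon.2, add_zero]
  have hsub4 : ∀ x, (univ.filter fun v => p v x + q v x ≠ 0) ⊆
      univ.filter fun v => pk S r (2 * L) v x ≠ 0 ∨ pk S r (2 * L - 1) v x ≠ 0 := by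
    intro x v hx
    rw [Finset.mem_filter] at hx ⊢
    refine ⟨Finset.mem_univ _, ?_⟩
    by_contra hcon
    push Not at hcon
    refine hx.2 ?_
    simp only [hp, hq]
    rw [hcon.1, hcon.2, add_zero]
  have hcard : ∀ (A B : Finset V) (t : ℝ), A ⊆ B → (B.card : ℝ) ≤ t → (A.card : ℝ) ≤ t := by
    intro A B t h1 h2
    exact le_trans (by exact_mod_cast Finset.card_le_card h1) h2
  have hl1 : ∀ v, ∑ x, |p v x - q v x| ≤ 3 := by
    intro v
    refine le_trans (Finset.sum_le_sum fun x _ => ?_) (k3 v)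
    have h3 := hp0 v x
    have h4 := hq0 v x
    rw [abs_le]
    constructor <;> simp only [hp, hq] at * <;> linarith
  have hTst : ∀ e' : ℝ, e ≤ e' → Tst (fun v x => p v x - q v x) d a e' := by
    intro e' he'
    refine ⟨fun v x => (habs v x).trans ?_, hl1, fun v => hcard _ _ _ (hsub1 v) (k6 v),
      fun x => hcard _ _ _ (hsub2 x) (k7 x)⟩
    exact div_le_div_of_nonneg_right he' hdp.le
  have hTst2 : Tst (fun v x => p v x + q v x) d a eK := by
    refine ⟨fun v x => ?_, fun v => ?_, fun v => hcard _ _ _ (hsub3 v) (k6 v),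
      fun x => hcard _ _ _ (hsub4 x) (k7 x)⟩
    · have h1 : p v x ≤ e / d := k1 v x
      have h2 : q v x ≤ e / d := k2 v x
      have h3 := hp0 v x
      have h4 := hq0 v x
      rw [abs_of_nonneg (by linarith)]
      calc p v x + q v x ≤ e / d + e / d := add_le_add h1 h2
        _ = (2 * e) / d := by ring
        _ ≤ eK / d := div_le_div_of_nonneg_right he3 hdp.le
    · refine le_trans (Finset.sum_le_sum fun x _ => ?_) (k3 v)
      have h3 := hp0 v x
      have h4 := hq0 v x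
      rw [abs_of_nonneg (by linarith)]
  obtain ⟨N, hMat, hN⟩ := hTok G S d P r (fun v x => p v x - q v x) hdT hreg hRes.sub hPr
    hRes.rlo hRes.rhi hRes.lo hRes.hi (hTst eT he2)
  obtain ⟨c, hOwn, hc⟩ := hown S P r (fun v x => p v x - q v x) N hMat (hTst eO he1)
    (fun v => (k4 v).trans he1)
  have hav : ∀ v, ∑ x, (p v x + q v x) * ((univ.filter fun b => x ∈ tk c N b).card : ℝ) ≤ 20 := by
    intro v
    set t : V → ℝ := fun x => ((univ.filter fun b => x ∈ tk c N b).card : ℝ) with ht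
    have h1 : ∑ x, pk S r (2 * L - 1 + 1) v x * t x ≤ 4 * ∑ x, pk S r (2 * L - 1) v x :=
      last_step S r (2 * L - 1) hr0 t 4 hOwn.av v
    have h2 : ∑ x, pk S r (2 * L - 2 + 1) v x * t x ≤ 4 * ∑ x, pk S r (2 * L - 2) v x :=
      last_step S r (2 * L - 2) hr0 t 4 hOwn.av v
    have e1 : 2 * L - 1 + 1 = 2 * L := by omega
    have e2 : 2 * L - 2 + 1 = 2 * L - 1 := by omega
    rw [e1] at h1
    rw [e2] at h2
    have h3 := row_mono S r hr0 hRes.lo (2 * L - 2) v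
    rw [e2] at h3
    have h4 := row_ge S r hr0 hRes.lo (2 * L) v
    have h5 := k3 v
    rw [Finset.sum_add_distrib] at h5
    have h6 : ∑ x, (p v x + q v x) * t x =
        ∑ x, pk S r (2 * L) v x * t x + ∑ x, pk S r (2 * L - 1) v x * t x := by
      rw [← Finset.sum_add_distrib]
      exact Finset.sum_congr rfl fun x _ => by simp only [hp, hq]; ring
    rw [h6]
    linarith
  obtain ⟨Km, lab, hKm1, hKm2, hKm3, hKm4⟩ := hKml G S d P r p q N c K hdK hMat hOwn hRes.K1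
    hRes.K2 hp0 hq0 hTst2 hav
  have hEIn : EIn G S d P r ⌈(d : ℝ) ^ (s * a)⌉₊ ⌈2 * (d : ℝ) ^ (s * a)⌉₊ (1 / 4000000) c N K Km := by
    have hceil1 : (1 : ℝ) ≤ (⌈(d : ℝ) ^ (s * a)⌉₊ : ℝ) := le_trans l5 (Nat.le_ceil _)
    have hc1 : 1 ≤ ⌈(d : ℝ) ^ (s * a)⌉₊ := by exact_mod_cast hceil1
    have hc2 : ∀ (x : ℕ), (x : ℝ) ≤ (d : ℝ) ^ (s * a) → x ≤ ⌈(d : ℝ) ^ (s * a)⌉₊ := fun x hx => by
      have : (x : ℝ) ≤ (⌈(d : ℝ) ^ (s * a)⌉₊ : ℝ) := hx.trans (Nat.le_ceil _)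
      exact_mod_cast this
    have hc3 : ∀ (x : ℕ), (x : ℝ) ≤ 2 * (d : ℝ) ^ (s * a) → x ≤ ⌈2 * (d : ℝ) ^ (s * a)⌉₊ := fun x hx => by
      have : (x : ℝ) ≤ (⌈2 * (d : ℝ) ^ (s * a)⌉₊ : ℝ) := hx.trans (Nat.le_ceil _)
      exact_mod_cast this
    refine ⟨hRes.sub, hPr, fun v => (hreg v).le, hRes.lo, fun v => (hRes.hi v).trans (by omega),
      hOwn.cp, hMat.NN, hMat.NG, hMat.Nd, fun v => hc2 _ (hOwn.t1 v), fun b v => hc3 _ (hOwn.t2 b v),
      fun b v => hc3 _ ((hOwn.ow b v).trans (by linarith)), hRes.K1, hKm1, hKm2, ?_, ?_⟩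
    · intro v hv
      have := hKm3 v hv
      linarith
    · intro v
      have h1 := hRes.K3 v
      have h2 : (nb S v \ K) = (nb S v).filter fun w => w ∉ K := by
        ext w
        simp
      rw [h2] at h1
      have h3 : (0 : ℝ) ≤ r := Nat.cast_nonneg r
      linarith
  refine hEng G S d P r ⌈(d : ℝ) ^ (s * a)⌉₊ ⌈2 * (d : ℝ) ^ (s * a)⌉₊ L (1 / 4000000) c N K Km lab (th (2 * L))
    (th (2 * L - 1)) hEIn (th_wts L (2 * L) (by omega) (le_refl _))
    (th_wts L (2 * L - 1) (by omega) (by omega)) hdE ?_ ?_ (by norm_num) (l6.trans hRes.rlo)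
    l1 l2 (hL.trans l3) l4 ?_
  · have hceil1 : (1 : ℝ) ≤ (⌈(d : ℝ) ^ (s * a)⌉₊ : ℝ) := le_trans l5 (Nat.le_ceil _)
    exact_mod_cast hceil1
  · have hceil1 : (1 : ℝ) ≤ (⌈2 * (d : ℝ) ^ (s * a)⌉₊ : ℝ) := le_trans (by linarith) (Nat.le_ceil _)
    exact_mod_cast hceil1
  · intro v
    simp_rw [resT_eq S r L (by omega) c N lab]
    have h1 := hKm4 v
    have h2 := hc v
    have h3 := hN v
    have h4 := k5 v
    have h5 : c₀ * (1 / 4000000) = 5 * ε := by rw [hεdef]; ring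
    rw [h5]
    simp only [hp, hq] at h1 h2 h3 h4
    linarith

end Pool.Agent.Work.MP_db9399_cg.helper35
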