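import Pool.Agent.Work.MP_db9399_cg_helper12.A6

/-! # Block A for an arbitrary `d`-regular graph: reserve with comparison of codegrees (helper35) -/

set_option autoImplicit false

namespace Pool.Agent.Work.MP_db9399_cg.helper35

open Finset Classical
open Pool.Agent.Work.MP_db9399_all (nb)
open Pool.Agent.Work.MP_db9399_cg.helper12 (row cdz_le cdg_nonneg)

universe u

/-- the reserve of an arbitrary `d`-regular graph: exact degrees outside the sparse set `Exc`, an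
independent set `K`, and comparison of the two-step walks -/
structure ResG {V : Type u} [Fintype V] (G S : SimpleGraph V) (d r : ℕ) (a ρ0 MS : ℝ)
    (K Exc : Finset V) : Prop where
  sub : S ≤ G
  rlo : (d : ℝ) ^ (1 - a) ≤ r
  rhi : (r : ℝ) ≤ (d : ℝ) ^ (1 - a / 3)
  lo : ∀ v, r ≤ (nb S v).card
  hi : ∀ v, (nb S v).card ≤ r + 1
  off : ∀ v, v ∉ Exc → (nb S v).card = r
  exc : ∀ v, ((nb S v ∩ Exc).card : ℝ) ≤ ρ0 * r
  K1 : ∀ v ∈ K, ∀ w ∈ K, ¬ S.Adj v w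
  K2 : ∀ v, v ∉ K → (r : ℝ) / 128 ≤ ((nb S v ∩ K).card : ℝ)
  K3 : ∀ v, (r : ℝ) / 2 ≤ ((nb S v \ K).card : ℝ)
  cmp : ∀ (u : V) (T : Finset V), u ∈ T → (T.card : ℝ) ≤ MS * d →
    1 / 20 * (∑ w ∈ univ \ T, cdg G u w / (d : ℝ) ^ 2) - 4 * (d : ℝ) ^ (-a) ≤
      ∑ w ∈ univ \ T, cdg S u w / ((r + 1 : ℕ) : ℝ) ^ 2

/-- AG -/
def Stmt_AG : Prop :=
  ∀ a ρ0 MS : ℝ, 0 < a → a ≤ 1 / 100 → 0 < ρ0 → ρ0 ≤ 1 → 1 ≤ MS → ∃ d0 : ℕ,
    ∀ {V : Type u} [Fintype V] (G : SimpleGraph V) (d : ℕ), d0 ≤ d → Reg G d →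
      ∃ (S : SimpleGraph V) (r : ℕ) (K Exc : Finset V), ResG G S d r a ρ0 MS K Exc

/-- AG gives A -/
theorem a_of_ag (h : Stmt_AG.{u}) : Stmt_A.{u} := by
  intro a ρ0 MS ha ha1 hρ hρ1 hMS
  obtain ⟨d0, H⟩ := h a ρ0 MS ha ha1 hρ hρ1 hMS
  have h1 : Filter.Tendsto (fun d : ℕ => (d : ℝ) ^ (a / 2)) Filter.atTop Filter.atTop :=
    (tendsto_rpow_atTop (by positivity)).comp tendsto_natCast_atTop_atTop
  obtain ⟨d1, hd1⟩ := Filter.eventually_atTop.1 ((h1.eventually_ge_atTop 100).and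
    (Filter.eventually_ge_atTop 2))
  refine ⟨max d0 d1, ?_⟩
  intro V _ G d g hd hreg hg1 hg hex
  obtain ⟨l1, l2⟩ := hd1 d ((le_max_right _ _).trans hd)
  have hdg : (2 : ℝ) ≤ d := by exact_mod_cast l2
  have hdp : (0 : ℝ) < d := by linarith
  have hdg1 : (1 : ℝ) ≤ d := by linarith
  obtain ⟨S, r, K, Exc, R⟩ := H G d ((le_max_left _ _).trans hd) hreg
  refine ⟨S, r, K, Exc, R.sub, R.rlo, R.rhi, R.lo, R.hi, R.off, R.exc, R.K1, R.K2, R.K3, ?_⟩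
  intro T hT
  have e1 : 100 * (d : ℝ) ^ (-a) ≤ g := by
    refine le_trans ?_ hg
    calc 100 * (d : ℝ) ^ (-a) ≤ (d : ℝ) ^ (a / 2) * (d : ℝ) ^ (-a) :=
          mul_le_mul_of_nonneg_right l1 (Real.rpow_nonneg hdp.le _)
      _ = (d : ℝ) ^ (a / 2 + -a) := by rw [Real.rpow_add hdp]
      _ ≤ (d : ℝ) ^ (-(a / 200)) := Real.rpow_le_rpow_of_exponent_le hdg1 (by linarith)
  have e2 : ∑ u ∈ T, (1 / 20 * (∑ w ∈ univ \ T, cdg G u w / (d : ℝ) ^ 2) - 4 * (d : ℝ) ^ (-a)) ≤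
      ∑ u ∈ T, ∑ w ∈ univ \ T, cdg S u w / ((r + 1 : ℕ) : ℝ) ^ 2 :=
    Finset.sum_le_sum fun u hu => R.cmp u T hu hT
  rw [Finset.sum_sub_distrib, ← Finset.mul_sum, Finset.sum_const, nsmul_eq_mul] at e2
  have e3 := hex T hT
  have e4 : (0 : ℝ) ≤ T.card := Nat.cast_nonneg _
  refine le_trans ?_ e2
  have e5 : (T.card : ℝ) * (100 * (d : ℝ) ^ (-a)) ≤ T.card * g := mul_le_mul_of_nonneg_left e1 e4
  nlinarith

/-- numerics of `A7` -/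
theorem num7 (a : ℝ) (n2 : ℕ) (ha : 0 < a) (ha1 : a ≤ 1 / 100) (hn : 16 ≤ n2) (MS : ℝ)
    (hMS : 1 ≤ MS) : ∃ d0 : ℕ, ∀ d : ℕ, d0 ≤ d → ∃ (f : ℕ) (κ : ℝ), 1 ≤ d ∧ 1 ≤ f ∧
      (f : ℝ) + 1 / (2 * n2) = κ * d / 2 ∧ (d : ℝ) ^ (-a) ≤ κ ∧ κ ≤ (d : ℝ) ^ (-(a / 3)) ∧
      (d : ℝ) ^ (1 - a) ≤ ((2 * f : ℕ) : ℝ) ∧ ((2 * f : ℕ) : ℝ) ≤ (d : ℝ) ^ (1 - a / 3) ∧
      (2 * (f : ℝ) + 1) ^ 2 ≤ 5 / 4 * (κ ^ 2 * (d : ℝ) ^ 2) ∧
      κ ^ 2 * (d : ℝ) ^ 2 ≤ (2 * (f : ℝ) + 1) ^ 2 ∧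
      (d : ℝ) ^ (8 / 5 : ℝ) ≤ (d : ℝ) ^ (2 - a) ∧
      MS * d * (d : ℝ) ^ (3 * a) ≤ κ ^ 2 * (d : ℝ) ^ (2 - a) := by
  have h1 : Filter.Tendsto (fun d : ℕ => (d : ℝ) ^ (a / 6)) Filter.atTop Filter.atTop :=
    (tendsto_rpow_atTop (by positivity)).comp tendsto_natCast_atTop_atTop
  have h2 : Filter.Tendsto (fun d : ℕ => (d : ℝ) ^ (1 - a)) Filter.atTop Filter.atTop :=
    (tendsto_rpow_atTop (by linarith)).comp tendsto_natCast_atTop_atTop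
  have h3 : Filter.Tendsto (fun d : ℕ => (d : ℝ) ^ (1 / 2 : ℝ)) Filter.atTop Filter.atTop :=
    (tendsto_rpow_atTop (by norm_num)).comp tendsto_natCast_atTop_atTop
  obtain ⟨d1, hd1⟩ := Filter.eventually_atTop.1 ((h1.eventually_ge_atTop 8).and
    ((h2.eventually_ge_atTop 40).and ((h3.eventually_ge_atTop MS).and
      (Filter.eventually_ge_atTop 2))))
  refine ⟨d1, fun d hd => ?_⟩
  obtain ⟨l1, l2, l3, l4⟩ := hd1 d hd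
  have hdg : (2 : ℝ) ≤ d := by exact_mod_cast l4
  have hdp : (0 : ℝ) < d := by linarith
  have hdg1 : (1 : ℝ) ≤ d := by linarith
  have hn' : (16 : ℝ) ≤ n2 := by exact_mod_cast hn
  -- f := floor (d^(1 - a/2) / 2)
  set y : ℝ := (d : ℝ) ^ (1 - a / 2) with hy
  have hy1 : 8 * (d : ℝ) ^ (1 - a) ≤ y := by
    have e1 : (d : ℝ) ^ (a / 2) * (d : ℝ) ^ (1 - a) = y := by
      rw [hy, ← Real.rpow_add hdp]
      ring_nf
    have e2 : (d : ℝ) ^ (a / 6) ≤ (d : ℝ) ^ (a / 2) :=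
      Real.rpow_le_rpow_of_exponent_le hdg1 (by linarith)
    rw [← e1]
    exact mul_le_mul_of_nonneg_right (l1.trans e2) (Real.rpow_nonneg hdp.le _)
  have hy2 : 8 * y ≤ (d : ℝ) ^ (1 - a / 3) := by
    have e1 : (d : ℝ) ^ (a / 6) * y = (d : ℝ) ^ (1 - a / 3) := by
      rw [hy, ← Real.rpow_add hdp]
      ring_nf
    rw [← e1]
    exact mul_le_mul_of_nonneg_right l1 (Real.rpow_nonneg hdp.le _)
  have hy0 : 0 ≤ y := Real.rpow_nonneg hdp.le _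
  set f : ℕ := ⌊y / 2⌋₊ with hf
  have hf1 : (f : ℝ) ≤ y / 2 := Nat.floor_le (by positivity)
  have hf2 : y / 2 < f + 1 := Nat.lt_floor_add_one _
  have hf3 : (20 : ℝ) ≤ f := by linarith
  have hfN : 1 ≤ f := by
    have : (1 : ℝ) ≤ f := by linarith
    exact_mod_cast this
  have hn3 : 1 / (2 * (n2 : ℝ)) ≤ 1 / 32 := one_div_le_one_div_of_le (by norm_num) (by linarith)
  have hn4 : 0 < 1 / (2 * (n2 : ℝ)) := by positivity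
  set κ : ℝ := 2 * ((f : ℝ) + 1 / (2 * n2)) / d with hκ
  have hκd : κ * d = 2 * ((f : ℝ) + 1 / (2 * n2)) := by
    rw [hκ]
    field_simp
  have hκd0 : κ * d / 2 = (f : ℝ) + 1 / (2 * n2) := by rw [hκd]; ring
  have hpa : (d : ℝ) ^ (-a) * d = (d : ℝ) ^ (1 - a) := by
    nth_rewrite 2 [← Real.rpow_one (d : ℝ)]
    rw [← Real.rpow_add hdp]
    ring_nf
  have hpa3 : (d : ℝ) ^ (-(a / 3)) * d = (d : ℝ) ^ (1 - a / 3) := by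
    nth_rewrite 2 [← Real.rpow_one (d : ℝ)]
    rw [← Real.rpow_add hdp]
    ring_nf
  have hκ1 : (d : ℝ) ^ (-a) ≤ κ := by
    rw [← mul_le_mul_iff_of_pos_right hdp, hpa, hκd]
    linarith
  have hκ2 : κ ≤ (d : ℝ) ^ (-(a / 3)) := by
    rw [← mul_le_mul_iff_of_pos_right hdp, hpa3, hκd]
    linarith
  have hsq : κ ^ 2 * (d : ℝ) ^ 2 = (2 * ((f : ℝ) + 1 / (2 * n2))) ^ 2 := by
    rw [← mul_pow, hκd]
  refine ⟨f, κ, by omega, hfN, hκd0.symm, hκ1, hκ2, ?_, ?_, ?_, ?_, ?_, ?_⟩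
  · push_cast
    linarith
  · push_cast
    linarith
  · rw [hsq]
    nlinarith
  · rw [hsq]
    refine pow_le_pow_left₀ (by positivity) ?_ 2
    linarith
  · exact Real.rpow_le_rpow_of_exponent_le hdg1 (by linarith)
  · have h2 : (d : ℝ) ^ (1 / 2 : ℝ) * d * (d : ℝ) ^ (3 * a) =
        (d : ℝ) ^ (1 / 2 + 1 + 3 * a : ℝ) := by
      rw [Real.rpow_add hdp, Real.rpow_add hdp, Real.rpow_one]
    have h3 : ((d : ℝ) ^ (-a)) ^ 2 * (d : ℝ) ^ (2 - a) = (d : ℝ) ^ (-a + -a + (2 - a)) := by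
      rw [Real.rpow_add hdp, Real.rpow_add hdp, sq]
    have h4 : (d : ℝ) ^ (1 / 2 + 1 + 3 * a : ℝ) ≤ (d : ℝ) ^ (-a + -a + (2 - a)) :=
      Real.rpow_le_rpow_of_exponent_le hdg1 (by linarith)
    have h5 : ((d : ℝ) ^ (-a)) ^ 2 ≤ κ ^ 2 :=
      pow_le_pow_left₀ (Real.rpow_nonneg hdp.le _) hκ1 2
    calc MS * d * (d : ℝ) ^ (3 * a) ≤ (d : ℝ) ^ (1 / 2 : ℝ) * d * (d : ℝ) ^ (3 * a) := by
          refine mul_le_mul_of_nonneg_right ?_ (Real.rpow_nonneg hdp.le _)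
          exact mul_le_mul_of_nonneg_right l3 hdp.le
      _ = (d : ℝ) ^ (1 / 2 + 1 + 3 * a : ℝ) := h2
      _ ≤ (d : ℝ) ^ (-a + -a + (2 - a)) := h4
      _ = ((d : ℝ) ^ (-a)) ^ 2 * (d : ℝ) ^ (2 - a) := h3.symm
      _ ≤ κ ^ 2 * (d : ℝ) ^ (2 - a) :=
          mul_le_mul_of_nonneg_right h5 (Real.rpow_nonneg hdp.le _)

/-- AG from the sub-blocks -/
theorem stmt_AG (hA1 : Stmt_A1.{u}) (hA34 : Stmt_A34.{u}) (hA5 : Stmt_A5.{u}) : Stmt_AG.{u} := by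
  intro a ρ0 MS ha ha1 hρ hρ1 hMS
  set n2 : ℕ := max 16 ⌈4 / ρ0⌉₊ with hn2
  have hn16 : 16 ≤ n2 := le_max_left _ _
  have hnρ : 4 / (n2 : ℝ) ≤ ρ0 := by
    have h1 : 4 / ρ0 ≤ (n2 : ℝ) :=
      (Nat.le_ceil _).trans (by exact_mod_cast le_max_right 16 ⌈4 / ρ0⌉₊)
    have h2 : (0 : ℝ) < n2 := by
      have : (16 : ℝ) ≤ n2 := by exact_mod_cast hn16
      linarith
    rw [div_le_iff₀ hρ] at h1
    rw [div_le_iff₀ h2]
    linarith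
  obtain ⟨d1, H1⟩ := hA1 a n2 ha ha1 (by omega)
  obtain ⟨d5, m, H5⟩ := hA5 a n2 ha ha1 hn16
  obtain ⟨d3, H3⟩ := hA34 a m ha ha1
  obtain ⟨d7, H7⟩ := num7 a n2 ha ha1 hn16 MS hMS
  refine ⟨max (max d1 d5) (max d3 d7), ?_⟩
  intro V _ G d hd hreg
  have hd1 : d1 ≤ d := le_trans (by simp) hd
  have hd5 : d5 ≤ d := le_trans (by simp) hd
  have hd3 : d3 ≤ d := le_trans (by simp) hd
  have hd7 : d7 ≤ d := le_trans (by simp) hd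
  obtain ⟨f, κ, hdd, hf1, hfκ, hκ1, hκ2, hr1, hr2, hs1, hs2, hp1, hp3⟩ := H7 d hd7
  have hdp : (0 : ℝ) < d := by exact_mod_cast hdd
  obtain ⟨K, M, hLab⟩ := H1 G d hd1 hreg
  let G1 : SimpleGraph V :=
    { Adj := fun v w => G.Adj v w ∧ ¬ (v ∈ K ∧ w ∈ K)
      symm := ⟨fun v w h => ⟨h.1.symm, fun h' => h.2 ⟨h'.2, h'.1⟩⟩⟩
      loopless := ⟨fun v h => G.loopless.irrefl v h.1⟩ }
  have hG1 : ∀ v w, G1.Adj v w ↔ G.Adj v w ∧ ¬ (v ∈ K ∧ w ∈ K) := fun v w => Iff.rfl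
  obtain ⟨θ, x1, h, cc, hE, hS⟩ := H5 G G1 d f κ K M hd5 hreg hLab hG1 hfκ hκ1 hκ2
  obtain ⟨O, Z, o1, o2, z1, z2, cV, cP⟩ := H3 G G1 d κ θ x1 h cc hd3 hE
  obtain ⟨S, s1, s2, s3, s4, s5, s6, s7, s8⟩ := hS O Z o1 o2 z1 z2 cV
  have hκ0 : 0 < κ := (Real.rpow_pos_of_pos hdp _).trans_le hκ1
  refine ⟨S, 2 * f, K, M true ∪ M false, fun v w hvw => (s1 hvw).1, hr1, hr2, s3, s4, s5, ?_, ?_,
    ?_, ?_, ?_⟩
  · intro v
    refine (s6 v).trans ?_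
    push_cast
    exact mul_le_mul_of_nonneg_right hnρ (by positivity)
  · intro v hv w hw hvw
    exact (s1 hvw).2 ⟨hv, hw⟩
  · intro v hv
    have := s7 v hv
    push_cast
    exact this
  · intro v
    have := s8 v
    push_cast
    linarith
  · intro u T hu hT
    have h1 := row G G1 d a κ (1 / n2) (1 / 64) K M Z hLab hG1 z2 u (cP u) T hu
    have h2 : ∑ w ∈ univ \ T, cdz Z u w ≤ ∑ w ∈ univ \ T, cdg S u w :=
      sum_le_sum fun w _ => cdz_le S Z s2 u w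
    have h3 : (T.card : ℝ) * (d : ℝ) ^ (3 * a) ≤ κ ^ 2 * (d : ℝ) ^ (2 - a) :=
      (mul_le_mul_of_nonneg_right hT (Real.rpow_nonneg hdp.le _)).trans hp3
    have h4 : κ ^ 2 * ((d : ℝ) ^ (8 / 5 : ℝ) / 8 + (d : ℝ) ^ (2 - a)) ≤
        κ ^ 2 * (2 * (d : ℝ) ^ (2 - a)) := by
      refine mul_le_mul_of_nonneg_left ?_ (by positivity)
      have : 0 ≤ (d : ℝ) ^ (8 / 5 : ℝ) := Real.rpow_nonneg hdp.le _
      linarith
    set A : ℝ := ∑ w ∈ univ \ T, cdg G u w with hA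
    set B : ℝ := ∑ w ∈ univ \ T, cdg S u w with hB
    have hA0 : 0 ≤ A := sum_nonneg fun w _ => cdg_nonneg G u w
    have h5 : κ ^ 2 / 16 * A - 3 * (κ ^ 2 * (d : ℝ) ^ (2 - a)) ≤ B := by linarith
    have e1 : ∑ w ∈ univ \ T, cdg G u w / (d : ℝ) ^ 2 = A / (d : ℝ) ^ 2 := by
      rw [hA, sum_div]
    have e2 : ∑ w ∈ univ \ T, cdg S u w / (((2 * f) + 1 : ℕ) : ℝ) ^ 2 =
        B / (2 * (f : ℝ) + 1) ^ 2 := by
      rw [hB, sum_div]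
      push_cast
      rfl
    rw [e1, e2]
    set Q : ℝ := (2 * (f : ℝ) + 1) ^ 2 with hQ
    have hQ0 : 0 < Q := by positivity
    have hκd : 0 < κ ^ 2 * (d : ℝ) ^ 2 := by positivity
    have e3 : (d : ℝ) ^ (2 - a) = (d : ℝ) ^ 2 * (d : ℝ) ^ (-a) := by
      rw [sub_eq_add_neg, Real.rpow_add hdp]
      norm_num
    have hna : 0 < (d : ℝ) ^ (-a) := Real.rpow_pos_of_pos hdp _
    rw [le_div_iff₀ hQ0]
    have e4 : (1 / 20 * (A / (d : ℝ) ^ 2) - 4 * (d : ℝ) ^ (-a)) * Q ≤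
        κ ^ 2 / 16 * A - 3 * (κ ^ 2 * (d : ℝ) ^ (2 - a)) := by
      have e5 : 1 / 20 * (A / (d : ℝ) ^ 2) * Q ≤ κ ^ 2 / 16 * A := by
        have : 1 / 20 * (A / (d : ℝ) ^ 2) * Q ≤
            1 / 20 * (A / (d : ℝ) ^ 2) * (5 / 4 * (κ ^ 2 * (d : ℝ) ^ 2)) :=
          mul_le_mul_of_nonneg_left hs1 (by positivity)
        refine this.trans (le_of_eq ?_)
        field_simp
        ring
      have e6 : 3 * (κ ^ 2 * (d : ℝ) ^ (2 - a)) ≤ 4 * (d : ℝ) ^ (-a) * Q := by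
        rw [e3]
        have : κ ^ 2 * (d : ℝ) ^ 2 * (d : ℝ) ^ (-a) ≤ Q * (d : ℝ) ^ (-a) :=
          mul_le_mul_of_nonneg_right hs2 hna.le
        nlinarith
      linarith
    exact e4.trans h5

end Pool.Agent.Work.MP_db9399_cg.helper35
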