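import Pool.Agent.Work.MP_db9399_cg_helper35.Spr
import Pool.Agent.Work.MP_db9399_cg_helper35.ResG
import Pool.Agent.Work.MP_db9399_cg_helper21.KER
import Pool.Agent.Work.MP_db9399_cg_helper21.CODEG
import Pool.Agent.Work.MP_db9399_cg_helper54.KMLB
import Pool.Agent.Work.MP_db9399_cg_helper54.EMBX
import Pool.Agent.Work.MP_db9399_cg_helper54.EMBS
import Pool.Agent.Work.MP_db9399_cg_helper59.TOK
import Pool.Agent.Work.MP_db9399_cg_helper68.A1
import Pool.Agent.Work.MP_db9399_cg_helper68.A34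
import Pool.Agent.Work.MP_db9399_cg_helper83.A5
import Pool.Agent.Work.MP_db9399_cg_helper46.A4
import Pool.Agent.Work.MP_db9399_cg_helper75.A3
import Pool.Agent.Work.MP_db9399_ow_helper23.OWNX
import Pool.Agent.Work.MP_db9399_ow_helper6.Hold

/-! # SPW / SW: final derivation (helper35); open: ENGINE -/

set_option autoImplicit false

namespace Pool.Agent.Work.MP_db9399_cg.helper35

open Pool.Agent.Work.MP_db9399_en (Stmt_ENGINE)

universe u

theorem ag_hold : Stmt_AG.{u} :=
  stmt_AG helper68.stmt_A1 (helper68.stmt_A34 helper75.stmt_A3 helper46.stmt_A4) helper83.stmt_A5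

theorem spw_hold (hE : Stmt_ENGINE.{u}) : Stmt_SPW.{u} :=
  helper54.stmt_EMBX (stmt_SPR (a_of_ag ag_hold) helper21.stmt_KER helper59.stmt_TOK
    helper54.stmt_KML
    (Pool.Agent.Work.MP_db9399_ow.helper23.stmt_OWNX Pool.Agent.Work.MP_db9399_ow.helper6.own_hold)
    hE)

theorem codeg_hold (hE : Stmt_ENGINE.{u}) : Stmt_CODEG.{u} :=
  helper21.stmt_CODEG (spw_hold hE)

theorem sw_hold (hE : Stmt_ENGINE.{u}) : Stmt_SW.{u} :=
  helper54.stmt_EMBS (stmt_SWR (a_of_ag ag_hold) helper21.stmt_KER helper59.stmt_TOK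
    helper54.stmt_KML
    (Pool.Agent.Work.MP_db9399_ow.helper23.stmt_OWNPX Pool.Agent.Work.MP_db9399_ow.helper6.own_hold)
    hE)

end Pool.Agent.Work.MP_db9399_cg.helper35
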