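import Pool.Agent.Work.MP_db9399_cg.Interface

/-! # SPW: elementary facts on the kernel `pk` (helper35) -/

set_option autoImplicit false

namespace Pool.Agent.Work.MP_db9399_cg.helper35

open Finset Classical
open Pool.Agent.Work.MP_db9399_all (nb mis)
open Pool.Agent.Work.MP_db9399_en (tk tks HH wlk)

universe u

variable {V : Type u} [Fintype V]

theorem iter_succ (S : SimpleGraph V) (r j : ℕ) (f : V → ℝ) (v : V) :
    ((HH S r)^[j + 1] f) v = (∑ w ∈ nb S v, ((HH S r)^[j] f) w) / r := by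
  rw [Function.iterate_succ_apply']
  rfl

theorem pk_succ (S : SimpleGraph V) (r j : ℕ) (v x : V) :
    pk S r (j + 1) v x = (∑ w ∈ nb S v, pk S r j w x) / r := by
  unfold pk
  rw [iter_succ]

theorem iter_eq (S : SimpleGraph V) (r j : ℕ) (f : V → ℝ) (v : V) :
    ((HH S r)^[j] f) v = ∑ x, f x * pk S r j v x := by
  induction j generalizing v with
  | zero =>
    simp [pk]
  | succ j ih =>
    rw [iter_succ]
    simp_rw [ih, pk_succ]
    rw [Finset.sum_comm, Finset.sum_div]
    refine Finset.sum_congr rfl fun x _ => ?_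
    rw [← Finset.mul_sum, mul_div_assoc]

theorem pk_nonneg (S : SimpleGraph V) (r j : ℕ) (v x : V) : 0 ≤ pk S r j v x := by
  induction j generalizing v with
  | zero =>
    simp only [pk, Function.iterate_zero, id_eq]
    split_ifs <;> norm_num
  | succ j ih =>
    rw [pk_succ]
    exact div_nonneg (Finset.sum_nonneg fun w _ => ih w) (Nat.cast_nonneg r)

theorem wlk_eq (S : SimpleGraph V) (r j : ℕ) (A : Finset V) (v : V) :
    wlk S r A j v = ∑ x ∈ A, pk S r j v x := by
  unfold wlk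
  rw [iter_eq]
  simp [Finset.sum_ite_mem]

theorem iter_mono (S : SimpleGraph V) (r j : ℕ) (f g : V → ℝ) (h : ∀ x, f x ≤ g x) (v : V) :
    ((HH S r)^[j] f) v ≤ ((HH S r)^[j] g) v := by
  rw [iter_eq, iter_eq]
  exact Finset.sum_le_sum fun x _ => mul_le_mul_of_nonneg_right (h x) (pk_nonneg S r j v x)

theorem row_eq (S : SimpleGraph V) (r j : ℕ) (v : V) :
    ∑ x, pk S r j v x = ((HH S r)^[j] fun _ => 1) v := by
  rw [iter_eq]
  simp

theorem row_mono (S : SimpleGraph V) (r : ℕ) (hr : 0 < r) (lo : ∀ v, r ≤ (nb S v).card) (j : ℕ)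
    (v : V) : ∑ x, pk S r j v x ≤ ∑ x, pk S r (j + 1) v x := by
  rw [row_eq, row_eq, Function.iterate_succ_apply]
  refine iter_mono S r j _ _ (fun x => ?_) v
  have h : (r : ℝ) ≤ ((nb S x).card : ℝ) := by exact_mod_cast lo x
  have hr' : (0 : ℝ) < r := by exact_mod_cast hr
  simp only [HH, Finset.sum_const, nsmul_eq_mul, mul_one]
  rw [le_div_iff₀ hr', one_mul]
  exact h

theorem row_ge (S : SimpleGraph V) (r : ℕ) (hr : 0 < r) (lo : ∀ v, r ≤ (nb S v).card) (j : ℕ)
    (v : V) : 1 ≤ ∑ x, pk S r j v x := by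
  induction j with
  | zero => simp [pk]
  | succ j ih => exact ih.trans (row_mono S r hr lo j v)

/-- the average of `f` over the last step -/
theorem last_step (S : SimpleGraph V) (r j : ℕ) (hr : 0 < r) (f : V → ℝ) (c : ℝ)
    (h : ∀ y, ∑ x ∈ nb S y, f x ≤ c * r) (v : V) :
    ∑ x, pk S r (j + 1) v x * f x ≤ c * ∑ x, pk S r j v x := by
  have hr' : (0 : ℝ) < r := by exact_mod_cast hr
  have h1 : ∑ x, pk S r (j + 1) v x * f x = ((HH S r)^[j] (HH S r f)) v := by
    rw [← Function.iterate_succ_apply, iter_eq]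
    exact Finset.sum_congr rfl fun x _ => mul_comm _ _
  have h2 : ((HH S r)^[j] (HH S r f)) v ≤ ((HH S r)^[j] fun _ => c) v := by
    refine iter_mono S r j _ _ (fun x => ?_) v
    simp only [HH]
    rw [div_le_iff₀ hr']
    exact h x
  have h3 : ((HH S r)^[j] fun _ => c) v = c * ∑ x, pk S r j v x := by
    rw [iter_eq, Finset.mul_sum]
  rw [h1, ← h3]
  exact h2

end Pool.Agent.Work.MP_db9399_cg.helper35
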