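import Pool.Agent.Work.MP_db9399_cg.Interface

/-! # SW in the form of the hand-in (helper35) -/

set_option autoImplicit false

namespace Pool.Agent.Work.MP_db9399_cg.helper35

open Finset
open Pool.Agent.Work.MP_db9399_all (nb)
open _root_.MP_db9399_co (IsTotalColoring)

universe u

theorem sw_result (h : Stmt_SW.{u}) : ∃ (c M : ℝ) (D₀ : ℕ), 0 < c ∧ 1 ≤ M ∧
    ∀ {V : Type u} [Fintype V] [DecidableEq V] (G : SimpleGraph V) [DecidableRel G.Adj],
      D₀ ≤ G.maxDegree →
      (∀ T U : Finset V,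
        (∀ v ∈ T, (G.maxDegree : ℝ) - (G.maxDegree : ℝ) ^ (1 - c) ≤ (G.degree v : ℝ)) →
        (T.card : ℝ) ≤ M * G.maxDegree →
        (U.card : ℝ) ≤ (1 + (G.maxDegree : ℝ) ^ (-c)) * T.card →
        (G.maxDegree : ℝ) ^ (1 - c) * T.card ≤ ∑ v ∈ T, ((G.neighborFinset v \ U).card : ℝ)) →
      ∃ (f : V → Fin (G.maxDegree + 2)) (t : Sym2 V → Fin (G.maxDegree + 2)),
        IsTotalColoring G f t := by
  obtain ⟨c, M, D₀, hc, hM, H⟩ := h
  refine ⟨c, M, D₀, hc, hM, ?_⟩
  intro V _ _ G _ hD hexp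
  have hnb : ∀ v, nb G v = G.neighborFinset v := by
    intro v
    ext w
    simp [nb]
  refine H G G.maxDegree hD (fun v => ?_) ?_
  · rw [hnb v, G.card_neighborFinset_eq_degree]
    exact G.degree_le_maxDegree v
  · intro T U h1 h2 h3
    have h4 := hexp T U (fun v hv => by
      have := h1 v hv
      rw [hnb v, G.card_neighborFinset_eq_degree] at this
      exact this) h2 h3
    refine h4.trans (le_of_eq ?_)
    unfold outE
    refine Finset.sum_congr rfl fun v _ => ?_
    rw [hnb v]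
    congr 2
    ext w
    simp

end Pool.Agent.Work.MP_db9399_cg.helper35
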