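import Pool.Agent.Work.MP_db9399_cg_helper35.Asm
import Pool.Agent.Work.MP_db9399_as_helper6.HK2

/-! # SPW: the regular case from the blocks (helper35) -/

set_option autoImplicit false

namespace Pool.Agent.Work.MP_db9399_cg.helper35

open Finset Classical
open Pool.Agent.Work.MP_db9399_all (nb mis)
open Pool.Agent.Work.MP_db9399_en (Stmt_ENGINE)
open Pool.Agent.Work.MP_db9399_as.helper6 (qk exp_two)
open _root_.MP_db9399_co (IsTotalColoring)

universe u

variable {V : Type u} [Fintype V]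

theorem nb_eq (G : SimpleGraph V) (v : V) : G.neighborFinset v = nb G v := by
  ext w
  simp [nb]

theorem outE_eq (G : SimpleGraph V) (T U : Finset V) :
    outE G T U = ∑ y ∈ univ \ U, ((nb G y ∩ T).card : ℝ) := by
  unfold outE
  have h1 : ∀ v, ((nb G v \ U).card : ℝ) = ∑ y ∈ univ \ U, if G.Adj v y then (1 : ℝ) else 0 := by
    intro v
    rw [← Finset.sum_filter, Finset.sum_const, nsmul_eq_mul, mul_one]
    congr 2
    ext y
    simp [nb, and_comm]
  have h2 : ∀ y, ((nb G y ∩ T).card : ℝ) = ∑ v ∈ T, if G.Adj v y then (1 : ℝ) else 0 := by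
    intro y
    rw [← Finset.sum_filter, Finset.sum_const, nsmul_eq_mul, mul_one]
    congr 2
    ext v
    simp [nb, and_comm, G.adj_comm]
  simp_rw [h1, h2]
  rw [Finset.sum_comm]

theorem lexp_ex2 (G : SimpleGraph V) (d : ℕ) (hd : 0 < d) (g M : ℝ) (hg : 0 < g) (hg1 : g ≤ 1)
    (hM : 0 ≤ M) (hreg : Reg G d) (h : LExp G d g M) : Ex2 G d (M * d) (g ^ 2 / 4) := by
  intro T hT
  have hd' : (0 : ℝ) < d := by exact_mod_cast hd
  have hdeg : ∀ u, G.degree u = d := by
    intro u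
    rw [← G.card_neighborFinset_eq_degree, nb_eq, hreg u]
  have hgg : 0 ≤ (d : ℝ) * (g / 2 - g ^ 2 / 4) := mul_nonneg hd'.le (by nlinarith)
  have key := exp_two G d (fun u => (hdeg u).le) d (fun u => (hdeg u).ge) ⌊M * d⌋₊ g hg
    (by linarith [hgg, mul_comm (d : ℝ) (g / 2 - g ^ 2 / 4)]) hd (by
      intro T U hT hU
      have h1 : (T.card : ℝ) ≤ M * d := (Nat.le_floor_iff (by positivity)).1 hT
      have h2 := h T U h1 hU
      rw [outE_eq] at h2
      simp_rw [nb_eq]
      exact h2) T ((Nat.le_floor_iff (by positivity)).2 hT)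
  refine key.trans (le_of_eq ?_)
  refine Finset.sum_congr rfl fun u _ => Finset.sum_congr rfl fun w _ => ?_
  simp only [qk, cdg, nb_eq]

theorem lexp_sparse (G : SimpleGraph V) (d : ℕ) (g M : ℝ) (hM : 1 ≤ M)
    (hreg : Reg G d) (hgd : 2 ≤ g * d) (hg : 0 ≤ g) (h : LExp G d g M) (v : V) :
    g / 2 * (d : ℝ) ^ 2 ≤ ((mis G (nb G v)).card : ℝ) := by
  set A := nb G v with hA
  have hcA : (A.card : ℝ) = d := by rw [hA, hreg v]
  have hd0 : (0 : ℝ) ≤ d := Nat.cast_nonneg d
  have h1 := h A A (by rw [hcA]; nlinarith) (by rw [hcA]; nlinarith)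
  rw [hcA] at h1
  -- ordered adjacent pairs inside `A`
  have h2 : outE G A A + ∑ x ∈ A, ((nb G x ∩ A).card : ℝ) = (d : ℝ) ^ 2 := by
    unfold outE
    rw [← Finset.sum_add_distrib]
    have : ∀ x ∈ A, ((nb G x \ A).card : ℝ) + ((nb G x ∩ A).card : ℝ) = d := by
      intro x _
      rw [← hreg x]
      have := Finset.card_sdiff_add_card_inter (nb G x) A
      exact_mod_cast this
    rw [Finset.sum_congr rfl this, Finset.sum_const, nsmul_eq_mul, hcA]
    ring
  have h3 : ((mis G A).card : ℝ) + (∑ x ∈ A, ((nb G x ∩ A).card : ℝ)) + A.card =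
      (d : ℝ) ^ 2 := by
    have e1 : ((A ×ˢ A).card : ℝ) = (d : ℝ) ^ 2 := by
      rw [Finset.card_product]
      push_cast
      rw [hcA]
      ring
    have e2 : (A ×ˢ A) = mis G A ∪ ((A ×ˢ A).filter (fun p => G.Adj p.1 p.2) ∪
        (A ×ˢ A).filter (fun p => p.1 = p.2)) := by
      ext p
      simp only [mis, mem_union, mem_filter, mem_product]
      tauto
    have d1 : Disjoint ((A ×ˢ A).filter (fun p => G.Adj p.1 p.2))
        ((A ×ˢ A).filter (fun p => p.1 = p.2)) := by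
      rw [Finset.disjoint_left]
      intro p hp hp'
      rw [mem_filter] at hp hp'
      exact hp.2.ne hp'.2
    have d2 : Disjoint (mis G A) ((A ×ˢ A).filter (fun p => G.Adj p.1 p.2) ∪
        (A ×ˢ A).filter (fun p => p.1 = p.2)) := by
      rw [Finset.disjoint_left]
      intro p hp hp'
      simp only [mis, mem_union, mem_filter, mem_product] at hp hp'
      tauto
    have e3 : (((A ×ˢ A).filter (fun p => G.Adj p.1 p.2)).card : ℝ) =
        ∑ x ∈ A, ((nb G x ∩ A).card : ℝ) := by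
      rw [Finset.card_filter, Finset.sum_product]
      push_cast
      refine Finset.sum_congr rfl fun x _ => ?_
      rw [← Finset.sum_filter, Finset.sum_const, nsmul_eq_mul, mul_one]
      congr 2
      ext y
      simp [nb, and_comm]
    have e4 : (((A ×ˢ A).filter (fun p => p.1 = p.2)).card : ℝ) = A.card := by
      congr 1
      have : (A ×ˢ A).filter (fun p => p.1 = p.2) = A.image fun x => (x, x) := by
        ext ⟨x, y⟩
        simp only [mem_filter, mem_product, mem_image, Prod.mk.injEq]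
        constructor
        · rintro ⟨⟨h1, h2⟩, rfl⟩
          exact ⟨x, h1, rfl, rfl⟩
        · rintro ⟨z, hz, rfl, rfl⟩
          exact ⟨⟨hz, hz⟩, rfl⟩
      rw [this, Finset.card_image_of_injective]
      intro x y hxy
      exact (Prod.mk.injEq _ _ _ _ ▸ hxy).1
    rw [← e1]
    conv_rhs => rw [e2]
    rw [Finset.card_union_of_disjoint d2, Finset.card_union_of_disjoint d1]
    push_cast
    rw [e3, e4]
    ring
  rw [hcA] at h3
  nlinarith

/-- the regular sparse world -/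
theorem stmt_SPR (hA : Stmt_A.{u}) (hKER : Stmt_KER.{u}) (hTOK : Stmt_TOK.{u})
    (hKML : Stmt_KML.{u}) (hOWN : Stmt_OWN.{u}) (hENG : Stmt_ENGINE.{u}) : Stmt_SPR.{u} := by
  intro g hg hg1
  obtain ⟨s, a0, hs, ha0, hOWN⟩ := hOWN
  obtain ⟨a, ε, ha, haa0, ha1, hε, hcore⟩ := core hA hKER hTOK hKML hENG s a0 hs ha0
  obtain ⟨eO, dO, heO, hOwn⟩ := hOWN a (g / 2) ε ha haa0 ha1 (by positivity) (by linarith) hε
  obtain ⟨MS, d0, hMS, H⟩ := hcore eO heO
  have h1 : Filter.Tendsto (fun d : ℕ => (d : ℝ) ^ (a / 200)) Filter.atTop Filter.atTop :=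
    (tendsto_rpow_atTop (by positivity)).comp tendsto_natCast_atTop_atTop
  have h2 : Filter.Tendsto (fun d : ℕ => (d : ℝ)) Filter.atTop Filter.atTop :=
    tendsto_natCast_atTop_atTop
  obtain ⟨d1, hd1⟩ := Filter.eventually_atTop.1 ((h1.eventually_ge_atTop (4 / g ^ 2)).and
    ((h2.eventually_ge_atTop (2 / g)).and (Filter.eventually_ge_atTop 1)))
  refine ⟨MS, max (max d0 dO) d1, hMS, ?_⟩
  intro V _ G d hd hreg hexp
  have hd0 : d0 ≤ d := le_trans (by simp) hd
  have hdO : dO ≤ d := le_trans (by simp) hd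
  obtain ⟨l1, l2, l3⟩ := hd1 d (le_trans (by simp) hd)
  have hdp : (0 : ℝ) < d := by
    have : (1 : ℝ) ≤ d := by exact_mod_cast l3
    linarith
  refine H G d (g ^ 2 / 4) hd0 hreg (by nlinarith) ?_
    (lexp_ex2 G d (by omega) g MS hg hg1 (by linarith) hreg hexp) ?_
  · rw [Real.rpow_neg hdp.le]
    rw [inv_le_comm₀ (Real.rpow_pos_of_pos hdp _) (by positivity)]
    rw [← one_div]
    have : 1 / (g ^ 2 / 4) = 4 / g ^ 2 := by field_simp
    rw [this]
    exact l1
  · intro S P r k N hMat hTst hk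
    refine hOwn G S d P r k N hdO (fun v => ?_) hMat hTst hk
    refine lexp_sparse G d g MS hMS hreg ?_ hg.le hexp v
    rw [div_le_iff₀ hg] at l2
    linarith

/-- the regular sparse world, polynomial scales -/
theorem stmt_SWR (hA : Stmt_A.{u}) (hKER : Stmt_KER.{u}) (hTOK : Stmt_TOK.{u})
    (hKML : Stmt_KML.{u}) (hOWN : Stmt_OWNP.{u}) (hENG : Stmt_ENGINE.{u}) : Stmt_SWR.{u} := by
  obtain ⟨s, a0, hs, ha0, hOWN⟩ := hOWN
  obtain ⟨a, ε, ha, haa0, ha1, hε, hcore⟩ := core hA hKER hTOK hKML hENG s a0 hs ha0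
  obtain ⟨eO, dO, heO, hOwn⟩ := hOWN a ε ha haa0 ha1 hε
  obtain ⟨MS, d0, hMS, H⟩ := hcore eO heO
  have h1 : Filter.Tendsto (fun d : ℕ => (d : ℝ) ^ (a / 1000)) Filter.atTop Filter.atTop :=
    (tendsto_rpow_atTop (by positivity)).comp tendsto_natCast_atTop_atTop
  obtain ⟨d1, hd1⟩ := Filter.eventually_atTop.1 ((h1.eventually_ge_atTop 4).and
    (Filter.eventually_ge_atTop 2))
  refine ⟨a / 1000, MS, max (max d0 dO) d1, by positivity, hMS, ?_⟩
  intro V _ G d hd hreg hexp
  have hd0 : d0 ≤ d := le_trans (by simp) hd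
  have hdO : dO ≤ d := le_trans (by simp) hd
  obtain ⟨l1, l3⟩ := hd1 d (le_trans (by simp) hd)
  have hdge : (2 : ℝ) ≤ d := by exact_mod_cast l3
  have hdp : (0 : ℝ) < d := by linarith
  have hdge1 : (1 : ℝ) ≤ d := by linarith
  set g := (d : ℝ) ^ (-(a / 1000)) with hg
  have hg0 : 0 < g := Real.rpow_pos_of_pos hdp _
  have hgu : (d : ℝ) ^ (a / 1000) * g = 1 := by
    rw [hg, ← Real.rpow_add hdp]
    simp
  have hg4 : g ≤ 1 / 4 := by
    rw [le_div_iff₀ (by norm_num)]
    nlinarith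
  refine H G d (g ^ 2 / 4) hd0 hreg (by nlinarith) ?_
    (lexp_ex2 G d (by omega) g MS hg0 (by linarith) (by linarith) hreg hexp) ?_
  · -- `d^(-a/200) = g^5 ≤ g^2 / 4`
    have e1 : (d : ℝ) ^ (-(a / 200)) = g ^ 5 := by
      rw [hg, ← Real.rpow_natCast, ← Real.rpow_mul hdp.le]
      congr 1
      push_cast
      ring
    rw [e1]
    have e2 : g ^ 5 = g ^ 2 * g ^ 3 := by ring
    have e3 : g ^ 3 ≤ 1 / 4 := by
      have e4 : g ^ 2 ≤ 1 := by nlinarith
      nlinarith
    rw [e2]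
    nlinarith [pow_pos hg0 2]
  · intro S P r k N hMat hTst hk
    refine hOwn G S d P r k N hdO (fun v => ?_) hMat hTst hk
    have e1 := lexp_sparse G d g MS hMS hreg ?_ hg0.le hexp v
    · refine le_trans ?_ e1
      have e2 : (d : ℝ) ^ (2 - a / 100) = g ^ 10 * (d : ℝ) ^ 2 := by
        rw [hg, ← Real.rpow_natCast, ← Real.rpow_mul hdp.le, ← Real.rpow_natCast (d : ℝ) 2,
          ← Real.rpow_add hdp]
        congr 1
        push_cast
        ring
      rw [e2]
      refine mul_le_mul_of_nonneg_right ?_ (by positivity)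
      have e3 : g ^ 10 = g * g ^ 9 := by ring
      have e4 : g ^ 9 ≤ 1 / 2 := by
        have : g ^ 9 ≤ g ^ 1 := pow_le_pow_of_le_one hg0.le (by linarith) (by norm_num)
        linarith
      rw [e3]
      nlinarith
    · have e5 : (d : ℝ) ^ (-(1 / 2) : ℝ) ≤ g := by
        rw [hg]
        exact Real.rpow_le_rpow_of_exponent_le hdge1 (by linarith)
      have e6 : (d : ℝ) ^ (-(1 / 2) : ℝ) * d = (d : ℝ) ^ (1 / 2 : ℝ) := by
        nth_rewrite 2 [← Real.rpow_one (d : ℝ)]
        rw [← Real.rpow_add hdp]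
        norm_num
      have e7 : (4 : ℝ) ≤ (d : ℝ) ^ (1 / 2 : ℝ) :=
        l1.trans (Real.rpow_le_rpow_of_exponent_le hdge1 (by linarith))
      nlinarith

end Pool.Agent.Work.MP_db9399_cg.helper35
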